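import Pool.Agent.Helper83.EIN2.Goals

/-!
# Project EIN2, packet MMN: the zeros of the chart `MM` are nondegenerate.
-/

set_option autoImplicit false

namespace Pool.Agent.Helper59.EIN2

open Pool.Agent.Helper83.EIN2

/-- the linear coefficient of a quadratic component vanishes -/
theorem lin {F : ℝ → Fin 12 → ℝ} (h : HasDerivAt F 0 0) (i : Fin 12) (c0 c1 c2 : ℝ)
    (hF : ∀ r, F r i = c0 + c1 * r + c2 * r ^ 2) : c1 = 0 := by
  have h1 : HasDerivAt (fun r ↦ F r i) 0 0 := (hasDerivAt_pi.1 h) i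
  have h2 : HasDerivAt (fun r : ℝ ↦ c0 + c1 * r + c2 * r ^ 2) c1 0 := by
    have h3 := (((hasDerivAt_id (0 : ℝ)).const_mul c1).const_add c0).add
      (((hasDerivAt_id (0 : ℝ)).pow 2).const_mul c2)
    exact (h3.congr_deriv (by simp)).congr_of_eventuallyEq (Filter.Eventually.of_forall fun r ↦ rfl)
  have h4 : (fun r ↦ F r i) = fun r : ℝ ↦ c0 + c1 * r + c2 * r ^ 2 := funext hF
  rw [h4] at h1
  exact (h1.unique h2).symm

/-- the two equations for `ṡ = x` and `ė = y` have only the zero solution -/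
theorem kernel {a b β g s e x y : ℝ} (ha : 0 < a) (hb : 0 < b) (hβ : 0 < β) (hg : 0 < g)
    (hab : b = 1 - a) (hbg : g = 1 - β) (hne : b - a ≠ 0 ∨ g - β ≠ 0)
    (hse : (s = 1 ∧ e = 0) ∨ (s = -1 ∧ e = 0) ∨ (s = g - β ∧ e = 2 * a) ∨ (s = -(g - β) ∧ e = 2 * b))
    (h1 : β * g * (e - 1) * y - a * b * s * x = 0)
    (h2 : x * (3 * s ^ 2 - 1 - 2 * (g - β) * (b - a) * s) + 4 * (β * g) * (s * y + e * x) = 0) :
    x = 0 ∧ y = 0 := by
  have hβg : 0 < β * g := mul_pos hβ hg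
  rcases hse with ⟨rfl, rfl⟩ | ⟨rfl, rfl⟩ | ⟨rfl, rfl⟩ | ⟨rfl, rfl⟩
  · have hx : x = 0 := by
      have h3 : x * ((b - a - (g - β)) ^ 2 + 4 * (β * g)) = 0 := by
        subst hab hbg
        linear_combination h2 + 4 * h1
      exact (mul_eq_zero.1 h3).resolve_right (by positivity)
    refine ⟨hx, ?_⟩
    rw [hx] at h1
    have h4 : β * g * y = 0 := by linear_combination -h1
    exact (mul_eq_zero.1 h4).resolve_left hβg.ne'
  · have hx : x = 0 := by
      have h3 : x * ((b - a + (g - β)) ^ 2 + 4 * (β * g)) = 0 := by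
        subst hab hbg
        linear_combination h2 - 4 * h1
      exact (mul_eq_zero.1 h3).resolve_right (by positivity)
    refine ⟨hx, ?_⟩
    rw [hx] at h1
    have h4 : β * g * y = 0 := by linear_combination -h1
    exact (mul_eq_zero.1 h4).resolve_left hβg.ne'
  · have hx : x = 0 := by
      have h3 : x * ((b - a) ^ 2 * (4 * (β * g)) + (g - β) ^ 2 * (2 * a) ^ 2) = 0 := by
        subst hab hbg
        linear_combination (-(1 - a - a)) * h2 - 4 * (1 - β - β) * h1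
      refine (mul_eq_zero.1 h3).resolve_right ?_
      rcases hne with h | h
      · positivity
      · positivity
    refine ⟨hx, ?_⟩
    rw [hx] at h1 h2
    rcases hne with h | h
    · have h4 : β * g * (b - a) * y = 0 := by
        rw [hab] at h1 ⊢
        linear_combination -h1
      exact (mul_eq_zero.1 h4).resolve_left (by positivity)
    · have h4 : β * g * (g - β) * y = 0 := by linear_combination h2 / 4
      exact (mul_eq_zero.1 h4).resolve_left (by positivity)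
  · have hx : x = 0 := by
      have h3 : x * ((b - a) ^ 2 * (4 * (β * g)) + (g - β) ^ 2 * (2 * b) ^ 2) = 0 := by
        subst hab hbg
        linear_combination (1 - a - a) * h2 + 4 * (1 - β - β) * h1
      refine (mul_eq_zero.1 h3).resolve_right ?_
      rcases hne with h | h
      · positivity
      · positivity
    refine ⟨hx, ?_⟩
    rw [hx] at h1 h2
    rcases hne with h | h
    · have h4 : β * g * (b - a) * y = 0 := by
        rw [hab] at h1 ⊢
        linear_combination h1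
      exact (mul_eq_zero.1 h4).resolve_left (by positivity)
    · have h4 : β * g * (g - β) * y = 0 := by linear_combination -h2 / 4
      exact (mul_eq_zero.1 h4).resolve_left (by positivity)

/-- the linearised equations -/
theorem eqs {a β : ℝ} {p d : Fin 12 → ℝ} (h : HasDerivAt (fun r : ℝ ↦ FMM a β 0 (p + r • d)) 0 0) :
    ((1 - β) * d 3 + β * d 2 - ((1 - β) * d 4 - d 2) = 0 ∧
    (1 - β) * d 3 + β * d 2 - (β * d 4 - d 3) = 0 ∧
    (1 - (1 - a) * p 0) * d 2 - (1 - a) * d 0 * p 2 + (1 + (1 - a) * p 0) * d 3 + (1 - a) * d 0 * p 3 +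
      d 2 * p 3 + p 2 * d 3 - d 4 + (1 - a) * d 1 = 0 ∧
    (1 + a * p 0) * d 2 + a * d 0 * p 2 + (1 - a * p 0) * d 3 - a * d 0 * p 3 +
      d 2 * p 3 + p 2 * d 3 - d 4 + a * (d 10 + d 11 - d 1) = 0) ∧
    ((1 - β) * d 6 + β * d 5 + (1 - a) * d 1 - a * (d 10 + d 11 - d 1) + p 0 * d 4 + d 0 * p 4 -
      (1 - β) * d 7 + d 5 = 0 ∧
    (1 - β) * d 6 + β * d 5 + (1 - a) * d 1 - a * (d 10 + d 11 - d 1) - p 0 * d 4 - d 0 * p 4 -
      β * d 7 + d 6 = 0 ∧
    -(a * d 10) + (1 - β) * d 6 - (β * d 8 + (1 - β) * d 9) * p 0 - (β * p 8 + (1 - β) * p 9) * d 0 +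
      β * d 8 = 0 ∧
    -(a * d 11) + β * d 5 + (β * d 8 + (1 - β) * d 9) * p 0 + (β * p 8 + (1 - β) * p 9) * d 0 +
      (1 - β) * d 9 = 0) ∧
    (-(2 * p 0 * d 0) - 2 * β ^ 2 * d 8 = 0 ∧ -(2 * p 0 * d 0) - 2 * (1 - β) ^ 2 * d 9 = 0 ∧
    d 10 - 2 * β * d 8 = 0 ∧ d 11 - 2 * (1 - β) * d 9 = 0) := by
  refine ⟨⟨?_, ?_, ?_, ?_⟩, ⟨?_, ?_, ?_, ?_⟩, ?_, ?_, ?_, ?_⟩
  · refine lin h 0 ((1 - β) * p 3 + β * p 2 - ((1 - β) * p 4 - p 2)) _ 0 fun r ↦ ?_
    simp [FMM, lenMM]
    ring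
  · refine lin h 1 ((1 - β) * p 3 + β * p 2 - (β * p 4 - p 3)) _ 0 fun r ↦ ?_
    simp [FMM, lenMM]
    ring
  · refine lin h 2 ((1 - (1 - a) * p 0) * p 2 + (1 + (1 - a) * p 0) * p 3 + p 2 * p 3 - p 4 +
      (1 - a) * p 1) _ (-((1 - a) * d 0 * d 2) + (1 - a) * d 0 * d 3 + d 2 * d 3) fun r ↦ ?_
    simp [FMM, lenMM]
    ring
  · refine lin h 3 ((1 + a * p 0) * p 2 + (1 - a * p 0) * p 3 + p 2 * p 3 - p 4 +
      a * (p 10 + p 11 - p 1)) _ (a * d 0 * d 2 - a * d 0 * d 3 + d 2 * d 3) fun r ↦ ?_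
    simp [FMM, lenMM]
    ring
  · refine lin h 4 ((1 - β) * p 6 + β * p 5 + (1 - a) * p 1 - a * (p 10 + p 11 - p 1) + p 0 * p 4 -
      (1 - β) * p 7 + p 5) _ (d 0 * d 4) fun r ↦ ?_
    simp [FMM, lenMM]
    ring
  · refine lin h 5 ((1 - β) * p 6 + β * p 5 + (1 - a) * p 1 - a * (p 10 + p 11 - p 1) - p 0 * p 4 -
      β * p 7 + p 6) _ (-(d 0 * d 4)) fun r ↦ ?_
    simp [FMM, lenMM]
    ring
  · refine lin h 6 (-(a * p 10) + (1 - β) * p 6 - (β * p 8 + (1 - β) * p 9) * p 0 + β * p 8) _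
      (-((β * d 8 + (1 - β) * d 9) * d 0)) fun r ↦ ?_
    simp [FMM, lenMM]
    ring
  · refine lin h 7 (-(a * p 11) + β * p 5 + (β * p 8 + (1 - β) * p 9) * p 0 + (1 - β) * p 9) _
      ((β * d 8 + (1 - β) * d 9) * d 0) fun r ↦ ?_
    simp [FMM, lenMM]
    ring
  · refine lin h 8 (1 - p 0 ^ 2 - 2 * β ^ 2 * p 8) _ (-(d 0 ^ 2)) fun r ↦ ?_
    simp [FMM, lenMM]
    ring
  · refine lin h 9 (1 - p 0 ^ 2 - 2 * (1 - β) ^ 2 * p 9) _ (-(d 0 ^ 2)) fun r ↦ ?_
    simp [FMM, lenMM]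
    ring
  · refine lin h 10 (p 10 - 2 * β * p 8) _ 0 fun r ↦ ?_
    simp [FMM, lenMM]
    ring
  · refine lin h 11 (p 11 - 2 * (1 - β) * p 9) _ 0 fun r ↦ ?_
    simp [FMM, lenMM]
    ring

/-- **Packet MMN.** -/
theorem mmn : MMN := by
  intro a β ha ha1 hβ hβ1 hne s e hse d hd
  obtain ⟨⟨E0, E1, E2, E3⟩, ⟨E4, E5, E6, E7⟩, E8, E9, E10, E11⟩ := eqs hd
  have z0 : zMM a β s e 0 = s := by simp [zMM]
  have z2 : zMM a β s e 2 = e * (1 - β) / β := by simp [zMM]
  have z3 : zMM a β s e 3 = e * β / (1 - β) := by simp [zMM]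
  have z4 : zMM a β s e 4 = e / (β * (1 - β)) := by simp [zMM]
  have z8 : zMM a β s e 8 = (1 - s ^ 2) / (2 * β ^ 2) := by simp [zMM]
  have z9 : zMM a β s e 9 = (1 - s ^ 2) / (2 * (1 - β) ^ 2) := by simp [zMM]
  rw [z0, z2, z3] at E2 E3
  rw [z0, z4] at E4 E5
  rw [z0, z8, z9] at E6 E7
  rw [z0] at E8 E9
  have hg0 : 0 < 1 - β := by linarith
  have hb0 : 0 < 1 - a := by linarith
  have hβ' : β ≠ 0 := hβ.ne'
  have hg' : 1 - β ≠ 0 := hg0.ne'
  obtain ⟨x, hx⟩ : ∃ x, x = d 0 := ⟨_, rfl⟩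
  obtain ⟨y, hy⟩ : ∃ y, y = (1 - β) * d 3 + β * d 2 := ⟨_, rfl⟩
  rw [← hx] at E2 E3 E4 E5 E6 E7 E8 E9
  have d4 : d 4 = y / (β * (1 - β)) := by
    rw [eq_div_iff (by positivity)]
    linear_combination -(1 / 2 : ℝ) * (β * E0 + (1 - β) * E1) - hy
  have d2 : d 2 = y * (1 - β) / β := by
    have h4 : d 4 * (β * (1 - β)) = y := by rw [d4]; field_simp
    rw [eq_div_iff hβ']
    linear_combination β * E0 + β * hy + h4
  have d3 : d 3 = y * β / (1 - β) := by
    have h4 : d 4 * (β * (1 - β)) = y := by rw [d4]; field_simp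
    rw [eq_div_iff hg']
    linear_combination (1 - β) * E1 + (1 - β) * hy + h4
  have d8 : d 8 = -(s * x) / β ^ 2 := by
    rw [eq_div_iff (by positivity)]
    linear_combination -(1 / 2 : ℝ) * E8
  have d9 : d 9 = -(s * x) / (1 - β) ^ 2 := by
    rw [eq_div_iff (by positivity)]
    linear_combination -(1 / 2 : ℝ) * E9
  have d10 : d 10 = -(2 * s * x) / β := by
    have h : d 10 = 2 * β * d 8 := by linear_combination E10
    rw [h, d8]
    field_simp
  have d11 : d 11 = -(2 * s * x) / (1 - β) := by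
    have h : d 11 = 2 * (1 - β) * d 9 := by linear_combination E11
    rw [h, d9]
    field_simp
  have hI : β * (1 - β) * (e - 1) * y - a * (1 - a) * s * x = 0 := by
    have S : d 2 + d 3 - d 4 + d 2 * (e * β / (1 - β)) + e * (1 - β) / β * d 3 +
        a * (1 - a) * (d 10 + d 11) = 0 := by linear_combination a * E2 + (1 - a) * E3
    rw [d2, d3, d4, d10, d11] at S
    have key : β * (1 - β) * (e - 1) * y - a * (1 - a) * s * x = β * (1 - β) / 2 *
        (y * (1 - β) / β + y * β / (1 - β) - y / (β * (1 - β)) + y * (1 - β) / β * (e * β / (1 - β)) +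
          e * (1 - β) / β * (y * β / (1 - β)) +
          a * (1 - a) * (-(2 * s * x) / β + -(2 * s * x) / (1 - β))) := by
      field_simp
      ring
    rw [key, S, mul_zero]
  have hII : x * (3 * s ^ 2 - 1 - 2 * (1 - β - β) * (1 - a - a) * s) +
      4 * (β * (1 - β)) * (s * y + e * x) = 0 := by
    have hU : (1 - β) * d 6 = a * d 10 + (β * d 8 + (1 - β) * d 9) * s +
        (β * ((1 - s ^ 2) / (2 * β ^ 2)) + (1 - β) * ((1 - s ^ 2) / (2 * (1 - β) ^ 2))) * x - β * d 8 := by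
      linear_combination E6
    have hV : β * d 5 = a * d 11 - (β * d 8 + (1 - β) * d 9) * s -
        (β * ((1 - s ^ 2) / (2 * β ^ 2)) + (1 - β) * ((1 - s ^ 2) / (2 * (1 - β) ^ 2))) * x -
        (1 - β) * d 9 := by
      linear_combination E7
    have hW : (1 - a) * d 1 - a * (d 10 + d 11 - d 1) = s * (d 2 - d 3) +
        x * (e * (1 - β) / β - e * β / (1 - β)) := by
      linear_combination E2 - E3
    have S : (β - (1 - β)) * ((1 - β) * d 6 + β * d 5 + ((1 - a) * d 1 - a * (d 10 + d 11 - d 1))) +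
        s * d 4 + x * (e / (β * (1 - β))) + β * d 5 - (1 - β) * d 6 = 0 := by
      linear_combination β * E4 - (1 - β) * E5
    rw [hU, hV, hW, d2, d3, d4, d8, d9, d10, d11] at S
    have key : ∀ Z : ℝ, Z = 0 → x * (3 * s ^ 2 - 1 - 2 * (1 - β - β) * (1 - a - a) * s) +
        4 * (β * (1 - β)) * (s * y + e * x) = β * (1 - β) * Z →
        x * (3 * s ^ 2 - 1 - 2 * (1 - β - β) * (1 - a - a) * s) +
        4 * (β * (1 - β)) * (s * y + e * x) = 0 := by
      intro Z h1 h2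
      rw [h2, h1, mul_zero]
    refine key _ S ?_
    field_simp
    ring
  have hk := kernel (a := a) (b := 1 - a) (β := β) (g := 1 - β) (s := s) (e := e) (x := x) (y := y)
    ha hb0 hβ hg0 rfl rfl
    (by
      rcases hne with h | h
      · left
        intro h2
        exact h (by linarith)
      · right
        intro h2
        exact h (by linarith))
    (by
      rcases hse with h | h | h | h
      · exact Or.inl h
      · exact Or.inr (Or.inl h)
      · exact Or.inr (Or.inr (Or.inl ⟨by rw [h.1]; ring, h.2⟩))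
      · exact Or.inr (Or.inr (Or.inr ⟨by rw [h.1]; ring, h.2⟩)))
    hI hII
  obtain ⟨hx0, hy0⟩ := hk
  rw [hy0] at d2 d3 d4
  rw [hx0] at d8 d9 d10 d11
  simp only [zero_mul, mul_zero, neg_zero, zero_div] at d2 d3 d4 d8 d9 d10 d11
  rw [d2, d3, d4, d10, d11, hx0] at E3
  rw [d8, d9, d10, hx0] at E6
  rw [d8, d9, d11, hx0] at E7
  have d1 : d 1 = 0 := by
    have h : a * d 1 = 0 := by linear_combination -E3
    exact (mul_eq_zero.1 h).resolve_left ha.ne'
  have d6 : d 6 = 0 := by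
    have h : (1 - β) * d 6 = 0 := by linear_combination E6
    exact (mul_eq_zero.1 h).resolve_left hg'
  have d5 : d 5 = 0 := by
    have h : β * d 5 = 0 := by linear_combination E7
    exact (mul_eq_zero.1 h).resolve_left hβ'
  have d7 : d 7 = 0 := by
    rw [d5, d6, d1, d10, d11, d4, hx0] at E4
    have h : (1 - β) * d 7 = 0 := by linear_combination -E4
    exact (mul_eq_zero.1 h).resolve_left hg'
  have d0 : d 0 = 0 := by rw [← hx, hx0]
  funext i
  fin_cases i <;> simpa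

end Pool.Agent.Helper59.EIN2
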